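import Pool.Agent.N514.TF.Defs

/-! Products of the generators and signs. -/

set_option autoImplicit false

namespace Pool.Agent.N514.TF

open ExteriorAlgebra Finset

/-- sign of the comparison -/
def cmpS (x y : ℕ) : ℤ := if x < y then 1 else if y < x then -1 else 0

def inv1 (x : ℕ) : List ℕ → ℤ
  | [] => 1
  | y :: l => cmpS x y * inv1 x l

/-- product over all pairs of the signs of the comparisons -/
def sg : List ℕ → ℤ
  | [] => 1
  | x :: l => inv1 x l * sg l

/-- product of generators -/
noncomputable def mon {n : ℕ} (l : List (Fin n)) : H n :=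
  (l.map (fun i => ι ℤ (Pi.single i (1 : ℤ) : Fin n → ℤ))).prod

theorem inv1_ofFn (x : ℕ) {m : ℕ} (g : Fin m → ℕ) :
    inv1 x (List.ofFn g) = ∏ j, cmpS x (g j) := by
  induction m with
  | zero => simp [inv1]
  | succ m ih => rw [List.ofFn_succ, inv1, ih, Fin.prod_univ_succ]

theorem sg_ofFn {m : ℕ} (g : Fin m → ℕ) :
    sg (List.ofFn g) = ∏ i, ∏ j ∈ Ioi i, cmpS (g i) (g j) := by
  induction m with
  | zero => simp [sg]
  | succ m ih =>
    rw [List.ofFn_succ, sg, ih, inv1_ofFn, Fin.prod_univ_succ, Fin.prod_Ioi_zero]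
    congr 1
    refine Finset.prod_congr rfl fun i _ => ?_
    rw [Fin.prod_Ioi_succ]

theorem ιMulti_single {n : ℕ} (F : Fin n → Fin n) :
    ExteriorAlgebra.ιMulti ℤ n (fun i => Pi.single (F i) (1 : ℤ)) =
      sg (List.ofFn fun i => (F i : ℕ)) • T n := by
  rw [sg_ofFn]
  by_cases hF : Function.Injective F
  · let σ : Equiv.Perm (Fin n) := Equiv.ofBijective F (Finite.injective_iff_bijective.mp hF)
    have h1 : ExteriorAlgebra.ιMulti ℤ n (fun i => Pi.single (F i) (1 : ℤ)) =
        (σ.sign : ℤ) • T n := by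
      have := (ExteriorAlgebra.ιMulti ℤ n (M := Fin n → ℤ)).map_perm (fun i => Pi.single i (1 : ℤ)) σ
      rw [T, ← Units.smul_def, ← this]
      rfl
    rw [h1]
    congr 1
    rw [Equiv.Perm.sign_eq_prod_prod_Ioi]
    push_cast
    refine Finset.prod_congr rfl fun i _ => Finset.prod_congr rfl fun j hj => ?_
    have hij : i < j := by simpa using hj
    have hne : F i ≠ F j := fun h => (ne_of_lt hij) (hF h)
    have e1 : (σ i) = F i := rfl
    have e2 : (σ j) = F j := rfl
    rw [e1, e2]
    unfold cmpS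
    by_cases h : F i < F j
    · simp [h]
    · have h2 : F j < F i := lt_of_le_of_ne (not_lt.mp h) hne.symm
      simp [h, Fin.lt_def.mp h2]
  · obtain ⟨i, j, hij, hne⟩ : ∃ i j, F i = F j ∧ i ≠ j := by
      by_contra hcon
      push Not at hcon
      exact hF fun i j h => hcon i j h
    have h1 : ExteriorAlgebra.ιMulti ℤ n
        (fun i => (Pi.single (F i) (1 : ℤ) : Fin n → ℤ)) = 0 := by
      apply AlternatingMap.map_eq_zero_of_eq (i := i) (j := j) _ _ _ hne
      simp [hij]
    rw [h1]
    have h2 : ∏ i, ∏ j ∈ Ioi i, cmpS (F i) (F j) = 0 := by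
      rcases lt_or_gt_of_ne hne with h | h
      · exact Finset.prod_eq_zero (mem_univ i)
          (Finset.prod_eq_zero (i := j) (by simpa using h) (by simp [cmpS, hij]))
      · exact Finset.prod_eq_zero (mem_univ j)
          (Finset.prod_eq_zero (i := i) (by simpa using h) (by simp [cmpS, hij]))
    rw [h2, zero_smul]

theorem mon_eq {n : ℕ} (l : List (Fin n)) (hl : l.length = n) :
    mon l = sg (l.map Fin.val) • T n := by
  have h := ιMulti_single (fun i : Fin n => l.get (i.cast hl.symm))
  have e1 : (List.ofFn fun i : Fin n => l.get (i.cast hl.symm)) = l := by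
    apply List.ext_get
    · simp [hl]
    · intro k h1 h2
      simp
  rw [ExteriorAlgebra.ιMulti_apply] at h
  have e2 : (List.ofFn fun i : Fin n => ι ℤ (Pi.single (l.get (i.cast hl.symm)) (1 : ℤ) : Fin n → ℤ))
      = l.map (fun i => ι ℤ (Pi.single i (1 : ℤ) : Fin n → ℤ)) := by
    conv_rhs => rw [← e1]
    rw [List.map_ofFn]
    rfl
  have e3 : (List.ofFn fun i : Fin n => ((l.get (i.cast hl.symm) : Fin n) : ℕ))
      = l.map Fin.val := by
    conv_rhs => rw [← e1]
    rw [List.map_ofFn]
    rfl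
  rw [e2, e3] at h
  exact h

theorem mon_append {n : ℕ} (l l' : List (Fin n)) : mon (l ++ l') = mon l * mon l' := by
  simp [mon]

theorem mon_mem {n : ℕ} (l : List (Fin n)) : mon l ∈ Hd n l.length := by
  have h : mon l = ExteriorAlgebra.ιMulti ℤ l.length
      (fun i => Pi.single (l.get i) (1 : ℤ) : Fin l.length → Fin n → ℤ) := by
    rw [ExteriorAlgebra.ιMulti_apply, mon]
    congr 1
    conv_lhs => rw [← List.ofFn_get l]
    rw [List.map_ofFn]
    rfl
  rw [h]
  exact ExteriorAlgebra.ιMulti_range ℤ l.length ⟨_, rfl⟩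

end Pool.Agent.N514.TF
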