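import Pool.Agent.N514.TF.Data
import Pool.Agent.N514.TF.Sg

/-! The kernel computations. -/

set_option autoImplicit false

namespace Pool.Agent.N514.TF

/-- the pair with number `a` -/
def pr (a : Fin 28) : Fin 8 × Fin 8 := prL.getD a (0, 0)

/-- the row with number `a` as an element of the lattice -/
def qv (k m : ℕ) (q : List (List ℤ)) (a : Fin 28) : L k m :=
  (fun i => ((q.getD a []).getD i 0, (q.getD a []).getD (k + i) 0),
    fun j l => (q.getD a []).getD (2 * k + 8 * j + l) 0)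

/-- the value `φ_ω(e_a, e_b)` -/
def gr (w : List (ℤ × List (Fin 8))) (a b : Fin 28) : ℤ :=
  (w.map fun p =>
    p.1 * sg (([(pr a).1, (pr a).2, (pr b).1, (pr b).2] ++ p.2).map Fin.val)).sum

/-- the inverse map -/
def hv (k m : ℕ) (P : List (List ℤ)) (x : L k m) (c : Fin 28) : ℤ :=
  ∑ i, ((x.1 i).1 * (P.getD i []).getD c 0 + (x.1 i).2 * (P.getD (k + i) []).getD c 0) +
    ∑ j, ∑ l, x.2 j l * (P.getD (2 * k + 8 * j + l) []).getD c 0

theorem pr_lt : ∀ a, (pr a).1 < (pr a).2 := by decide +kernel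

theorem pr_inj : ∀ a b, pr a = pr b → a = b := by decide +kernel

theorem pr_surj : ∀ i j : Fin 8, i < j → ∃ a, pr a = (i, j) := by decide +kernel

theorem chkZ1 : ∀ a c, hv 14 0 pZ (qv 14 0 qZ a) c = if a = c then 1 else 0 := by decide +kernel

theorem chkZ2 : ∀ a b, form 1 (qv 14 0 qZ a) (qv 14 0 qZ b) = gr wZ a b := by decide +kernel

theorem chkE1 : ∀ a c, hv 10 1 pE (qv 10 1 qE a) c = if a = c then 1 else 0 := by decide +kernel

theorem chkE2 : ∀ a b, form 1 (qv 10 1 qE a) (qv 10 1 qE b) = gr wE a b := by decide +kernel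

theorem lenZ : ∀ p ∈ wZ, p.2.length = 4 := by decide +kernel

theorem lenE : ∀ p ∈ wE, p.2.length = 4 := by decide +kernel

end Pool.Agent.N514.TF
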