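import Pool.Agent.N514.TF.Defs

/-! Explicit classes `ω ∈ H⁴(ℤ⁸)` with coefficients `0, ±1` and bases for the forms `φ_ω`. -/

set_option autoImplicit false

namespace Pool.Agent.N514.TF

/-- the pairs `i < j` -/
def prL : List (Fin 8 × Fin 8) :=
  [(0, 1), (0, 2), (0, 3), (0, 4), (0, 5), (0, 6), (0, 7),
   (1, 2), (1, 3), (1, 4), (1, 5), (1, 6), (1, 7),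
   (2, 3), (2, 4), (2, 5), (2, 6), (2, 7),
   (3, 4), (3, 5), (3, 6), (3, 7),
   (4, 5), (4, 6), (4, 7),
   (5, 6), (5, 7),
   (6, 7)]

/-- coefficients of `ω` -/
def wE : List (ℤ × List (Fin 8)) :=
  [(1, [0, 1, 2, 4]), (1, [0, 1, 2, 5]), (1, [0, 1, 2, 7]), (1, [0, 1, 3, 4]),
   (-1, [0, 1, 3, 5]), (1, [0, 1, 4, 5]), (-1, [0, 1, 4, 6]), (-1, [0, 1, 5, 6]),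
   (-1, [0, 1, 5, 7]), (1, [0, 2, 3, 6]), (1, [0, 2, 3, 7]), (-1, [0, 2, 4, 5]),
   (1, [0, 2, 5, 7]), (1, [0, 3, 5, 6]), (-1, [0, 3, 5, 7]), (-1, [0, 3, 6, 7]),
   (-1, [0, 4, 6, 7]), (1, [1, 2, 3, 4]), (1, [1, 2, 3, 5]), (-1, [1, 2, 3, 7]),
   (1, [1, 2, 4, 5]), (1, [1, 2, 4, 7]), (-1, [1, 2, 5, 6]), (-1, [1, 2, 5, 7]),
   (-1, [1, 3, 4, 5]), (-1, [1, 3, 5, 7]), (1, [1, 3, 6, 7]), (-1, [1, 4, 5, 6]),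
   (-1, [1, 4, 5, 7]), (1, [2, 3, 4, 6]), (1, [2, 3, 5, 7]), (-1, [2, 4, 5, 6]),
   (-1, [2, 4, 5, 7]), (1, [3, 4, 5, 7]), (1, [3, 4, 6, 7]), (1, [3, 5, 6, 7])]

/-- images of the basis elements of `H²` -/
def qE : List (List ℤ) :=
  [[0, 0, 0, 0, 0, 0, 0, 0, 0, 0, 0, 0, 0, 0, -1, 0, 0, 0, 0, 0, 0, 0, 0, 0, 0, 0, 0, 0],
   [0, 0, 0, 0, 0, 0, 0, 0, 0, 0, 0, 0, 0, 1, 0, 0, 0, 0, 0, 0, 0, 0, 0, 0, 0, 0, 0, 0],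
   [0, 1, 0, 0, 0, 0, 0, 0, 0, 0, 0, 0, 0, 0, 0, 0, 0, 0, 0, 0, 0, 0, 0, 0, 0, 0, 0, 0],
   [0, 0, 0, 0, 0, 0, 0, 0, 0, 0, 0, 0, -1, 0, 0, 0, 0, 0, 0, 0, 0, 0, 0, 0, 0, 0, 0, 0],
   [0, -1, 0, 0, 0, 1, 0, 1, 0, 0, 0, 0, 1, 0, -1, 0, 0, 0, 0, 0, 0, 0, 0, 0, 0, 0, 0, 0],
   [0, 0, 0, 0, 0, -2, 0, 0, -1, 0, 1, 0, -1, -1, -1, 1, -2, -1, 1, 1, 0, 1, 1, 1, 0, 1, 0, -1],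
   [0, 0, 0, 0, 0, 0, 0, 0, 0, 0, -1, 0, 0, 0, 0, 0, 0, 0, 0, 0, 0, 0, 0, 0, 0, 0, 0, 0],
   [0, 0, 1, 0, 0, 0, 0, 0, 0, 0, 0, 0, 0, 0, 0, 0, 0, 0, 0, 0, 0, 0, 0, 0, 0, 0, 0, 0],
   [-1, 0, 0, 0, 0, 0, 0, 0, 0, 0, 0, 0, 0, 0, 0, 0, 1, 0, 0, 0, 0, 0, 0, 0, 0, 0, 0, 0],
   [0, 0, 0, 1, 0, 0, 0, 0, 0, 0, 0, 0, 0, 0, 0, 0, 0, 0, 0, 0, 0, 0, 0, 0, 0, 0, 0, 0],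
   [1, 0, 0, -1, 0, -1, 1, 1, 0, 1, 1, 0, 0, 0, -1, 0, -1, 0, -1, 0, 0, 0, 0, 0, 0, 0, 0, 0],
   [0, 0, -1, 1, 0, 0, 0, -2, -2, -2, 0, 1, 0, 0, 2, 1, -2, 1, 1, 0, -1, 1, 1, 1, 0, 1, 1, 0],
   [0, 0, 0, 0, 0, 0, 0, 0, 0, 0, 0, -1, 0, 0, 0, 0, 0, 0, 0, 0, 0, 0, 0, 0, 0, 0, 0, 0],
   [1, 0, 0, 0, 0, 0, 0, 0, 0, 0, 0, 0, 0, 0, 0, 0, 0, 0, 0, 0, 0, 0, 0, 0, 0, 0, 0, 0],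
   [0, -1, 0, 0, 1, 0, 0, 0, 0, 0, 0, 0, 0, 0, 0, 0, 0, 0, 0, 0, 0, 0, 0, 0, 0, 0, 0, 0],
   [0, 0, -1, 0, -1, 0, -1, 1, 0, -1, 0, 0, 0, 1, 0, 1, 0, -1, 0, 1, 0, 0, 0, 1, 1, 0, -1, -1],
   [-1, 0, -1, 0, 1, 0, 0, 1, -2, 1, 0, -1, 0, -1, -1, 1, 0, 0, 3, 0, 0, 1, 1, 0, 0, 2, 0, -1],
   [0, 0, 0, 0, 0, 0, 0, -1, 0, 0, 0, 1, 0, -1, 1, 1, 1, 0, 0, -1, 0, 0, 0, 0, 0, 0, 0, 0],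
   [1, 0, 0, 0, 0, -1, 0, 0, 0, 0, 0, 0, 0, 0, 0, 0, -1, 0, -1, 0, 0, 0, 0, 0, 0, 0, 0, 0],
   [0, 0, 0, 0, 0, 1, 0, 0, 0, 0, 0, 0, 1, 0, 0, 0, 0, 0, 0, 0, 0, 0, 0, 0, 0, 0, 0, 0],
   [-1, -1, 1, 1, 1, 2, 0, -1, 1, 0, 0, 0, 0, -1, -1, -1, 1, 0, 2, 0, 0, 0, 0, -1, -1, 0, 1, 1],
   [0, 0, -1, -1, -1, -1, 0, 1, -1, 0, 0, 0, 0, 0, 1, 1, 0, -1, -1, 0, 0, 0, 0, 1, 1, 0, -1, -1],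
   [0, 1, 0, -1, 0, -1, 0, 0, 0, 1, 0, 0, -1, 0, 0, 0, 0, 0, 0, 0, 0, 0, 0, 0, 0, 0, 0, 0],
   [1, 0, 0, -1, 1, 0, 2, -1, 0, 1, 1, 1, 1, 0, 1, -1, -1, 2, -2, -2, 0, -1, 0, -1, -1, 0, 1, 2],
   [0, 0, 0, 0, 0, 1, -1, 2, 0, 1, -1, -1, 1, 0, -1, 0, 1, -1, 1, 1, 0, 0, 0, 0, 1, 0, -1, -1],
   [-1, 0, -1, 0, 0, 1, 0, -1, -2, -1, 0, 1, 0, 1, 1, 1, 0, 1, 2, 0, -1, 1, 1, 1, 0, 1, 0, 0],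
   [0, 0, 0, 0, 1, 0, 1, -1, 0, 1, 1, 0, 0, -1, 0, 0, 0, 1, 0, -1, 0, 0, 0, -1, -1, 0, 1, 1],
   [0, 0, 1, 1, 0, 1, 2, -3, 0, -1, 1, 1, 0, 0, 2, -2, -2, 3, -1, -2, -1, -1, 0, -1, -2, 0, 3, 3]]

/-- the inverse matrix -/
def pE : List (List ℤ) :=
  [[0, 0, 0, 0, 0, 0, 0, 0, 0, 0, 0, 0, 0, 1, 0, 0, 0, 0, 0, 0, 0, 0, 0, 0, 0, 0, 0, 0],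
   [0, 0, 1, 0, 0, 0, 0, 0, 0, 0, 0, 0, 0, 0, 0, 0, 0, 0, 0, 0, 0, 0, 0, 0, 0, 0, 0, 0],
   [0, 0, 0, 0, 0, 0, 0, 1, 0, 0, 0, 0, 0, 0, 0, 0, 0, 0, 0, 0, 0, 0, 0, 0, 0, 0, 0, 0],
   [0, 0, 0, 0, 0, 0, 0, 0, 0, 1, 0, 0, 0, 0, 0, 0, 0, 0, 0, 0, 0, 0, 0, 0, 0, 0, 0, 0],
   [0, 0, 1, 0, 0, 0, 0, 0, 0, 0, 0, 0, 0, 0, 1, 0, 0, 0, 0, 0, 0, 0, 0, 0, 0, 0, 0, 0],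
   [0, 0, 0, 1, 0, 0, 0, 0, 0, 0, 0, 0, 0, 0, 0, 0, 0, 0, 0, 1, 0, 0, 0, 0, 0, 0, 0, 0],
   [0, 0, 0, 0, -1, 0, 1, 0, 0, 0, 1, 0, 0, 0, 0, 0, 0, 0, -1, 0, 0, 0, -1, 0, 0, 0, 0, 0],
   [-1, 0, 1, 0, 1, 0, 0, 0, 0, 0, 0, 0, 0, 0, 0, 0, 0, 0, 0, -1, 0, 0, 0, 0, 0, 0, 0, 0],
   [-1, 0, 0, 0, 0, 0, 0, -1, 0, 0, 1, 0, 1, -1, 0, 0, 0, 1, 0, 0, 0, -1, 0, 0, 0, 0, -1, 0],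
   [0, 0, -1, 0, 0, 0, 0, 0, 0, 1, 0, 0, 0, 0, 0, 0, 0, 0, 0, 1, 0, 0, 1, 0, 0, 0, 0, 0],
   [0, 0, 0, 0, 0, 0, -1, 0, 0, 0, 0, 0, 0, 0, 0, 0, 0, 0, 0, 0, 0, 0, 0, 0, 0, 0, 0, 0],
   [0, 0, 0, 0, 0, 0, 0, 0, 0, 0, 0, 0, -1, 0, 0, 0, 0, 0, 0, 0, 0, 0, 0, 0, 0, 0, 0, 0],
   [0, 0, 0, -1, 0, 0, 0, 0, 0, 0, 0, 0, 0, 0, 0, 0, 0, 0, 0, 0, 0, 0, 0, 0, 0, 0, 0, 0],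
   [0, 1, 0, 0, 0, 0, 0, 0, 0, 0, 0, 0, 0, 0, 0, 0, 0, 0, 0, 0, 0, 0, 0, 0, 0, 0, 0, 0],
   [-1, 0, 0, 0, 0, 0, 0, 0, 0, 0, 0, 0, 0, 0, 0, 0, 0, 0, 0, 0, 0, 0, 0, 0, 0, 0, 0, 0],
   [0, 0, 0, 0, 0, 0, 1, 1, 0, 0, 0, 0, 0, 0, 0, 1, 0, 0, 0, 0, 0, 0, 0, 0, 0, 0, 1, 0],
   [0, 0, 0, 0, 0, 0, 0, 0, 1, 0, 0, 0, 0, 1, 0, 0, 0, 0, 0, 0, 0, 0, 0, 0, 0, 0, 0, 0],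
   [0, -1, -1, 0, 0, 0, 0, 0, 0, 0, 0, 0, 0, 0, 0, 0, 0, 0, -1, 0, -1, -1, 0, 0, 0, 0, 0, 0],
   [0, 0, 0, -1, 0, 0, 0, 0, -1, 0, 0, 0, 0, 0, 0, 0, 0, 0, -1, -1, 0, 0, 0, 0, 0, 0, 0, 0],
   [0, -1, -1, 0, -1, 0, 1, 1, 1, 0, 0, 0, -1, 1, 0, 1, 0, -1, 0, 1, 0, 0, 0, 0, 0, 0, 1, 0],
   [0, 0, -1, 0, 1, 0, 0, 1, 0, 1, -1, 1, 0, 1, -1, 0, 0, -1, -2, 0, 0, 0, 1, 1, -1, -1, 0, -1],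
   [-1, 0, 0, 0, 1, -1, -1, 0, 0, 1, 1, 1, 1, -1, -1, -1, 0, 0, 1, 0, 1, 0, 1, 0, -1, 0, -1, -1],
   [-1, 2, 1, 2, 1, 2, 0, -2, 1, -2, -1, 0, 1, 0, -1, -1, -1, 1, -1, -2, -1, -1, -2, 1, 2, 0, 0, 0],
   [0, -1, 0, -1, 1, 0, 0, 0, 0, 2, 0, 0, 1, 1, 1, 0, 0, 0, -1, 1, 0, 0, 2, 0, -1, 0, -1, 0],
   [1, 0, -1, 0, 0, -1, -1, 1, 0, 1, 1, 2, 1, -1, -1, 0, 0, 0, -1, -1, 1, 0, 1, 1, 0, -1, -1, -1],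
   [0, -1, -1, 0, -1, -1, 0, 1, 1, 1, 1, 0, 0, 0, 0, 1, 1, 0, 2, 2, 1, 0, 1, 0, -1, 0, -1, 0],
   [0, 1, 0, 0, 1, 0, 0, 0, 1, 0, 0, 1, 0, 1, 0, 0, 0, 0, -1, 0, 0, 0, 1, 0, 0, -1, 0, 0],
   [0, -1, 0, -1, 1, -1, 0, 2, 0, 2, 0, 1, 1, 0, -1, 1, 0, -1, 1, -1, 2, 1, 2, 1, -1, 0, 0, -1]]

/-- coefficients of `ω` -/
def wZ : List (ℤ × List (Fin 8)) :=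
  [(-1, [0, 1, 2, 5]), (-1, [0, 1, 3, 5]), (-1, [0, 1, 3, 6]), (-1, [0, 1, 4, 6]),
   (-1, [0, 3, 5, 7]), (1, [1, 2, 3, 7]), (-1, [1, 2, 6, 7]), (-1, [2, 3, 4, 7]),
   (1, [2, 5, 6, 7]), (-1, [3, 4, 5, 6])]

/-- images of the basis elements of `H²` -/
def qZ : List (List ℤ) :=
  [[0, 0, -1, 0, 0, 0, 0, 0, 1, 0, 0, 0, 0, 0, 0, 0, 0, 0, 0, 0, 0, 0, 0, 0, 0, 0, 0, 0],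
   [0, 0, 0, 0, 0, 0, 0, 0, 0, 0, 0, 0, 0, 0, 0, 0, 0, 0, 0, 0, 1, 0, 0, 0, 0, 0, 0, 0],
   [1, 0, 0, 0, 0, 0, 0, 0, 0, 0, 0, 1, 0, 0, 0, 0, 0, 0, 0, 0, 0, -1, 0, 1, 0, 0, 0, 0],
   [0, 0, 0, 0, 1, 0, 0, 0, 0, 0, 0, 0, 0, 0, 0, 0, 0, 0, 0, 0, 0, 0, 0, 0, 0, 0, 0, 0],
   [0, 0, 1, 0, 0, 0, 0, 0, 0, 0, 0, 0, 0, 0, 0, 0, 0, 0, 0, 0, 0, 0, 0, 0, 0, 0, 0, 0],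
   [1, 0, 0, 0, 0, 0, 0, 0, 0, 0, 0, 0, 0, 0, 0, 0, 0, 0, 0, 0, 0, 0, 0, 0, 0, 0, 0, 0],
   [0, 0, 0, 0, 0, 0, 0, 0, 0, 0, 0, 0, 0, 0, 0, -1, 0, 0, 0, 0, 0, 0, 0, 0, 0, 0, 0, 0],
   [0, 1, 0, 0, 0, 0, 0, 0, 0, 0, 0, 0, 0, 0, 0, 0, 0, 0, 0, 0, 0, 0, 0, 0, 0, 0, 0, 0],
   [0, 0, 0, 0, 0, 0, 0, 0, 0, 0, 0, 0, 1, 0, 0, 0, 0, 0, 1, 0, 0, 0, 0, 0, 0, 0, 0, 0],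
   [0, 0, 0, 0, 0, 0, 0, 1, 0, 0, 0, 0, 0, 0, 0, 0, 0, 0, 0, 0, 0, 0, 0, 0, 0, 0, 0, 0],
   [0, 0, 0, 0, 0, 0, 0, 0, 0, 0, 0, 0, 0, 0, -1, 0, 0, 0, 0, 0, 0, 0, 0, 0, 0, 1, 0, 0],
   [0, 0, 0, 0, 0, 0, 0, 0, 0, 0, 1, 0, -1, 1, 0, 0, 1, 0, 0, 1, 0, 0, 1, 0, -1, 0, 0, 1],
   [0, 0, 0, 0, 0, 0, 1, 0, 0, 0, 0, 0, 0, 0, 0, 0, 0, 0, 0, 0, 0, 0, 0, 0, 0, 0, 0, 0],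
   [0, 0, 0, 0, 0, -1, 0, 0, 0, 0, 0, 0, 0, 0, 0, 0, 0, 0, 0, 0, 0, 0, 0, 0, 1, 0, 0, 0],
   [0, 0, 0, 0, 0, 1, 0, 0, 0, 0, 0, 0, 0, 0, 0, 0, 0, 0, 0, 0, 0, 0, 0, 0, 0, 0, 0, 0],
   [0, 0, 0, 1, 0, 0, 0, 0, 0, 0, 0, 0, 0, 0, 0, 0, 0, 0, 0, 0, 0, 0, 0, 0, 0, 0, 0, 0],
   [0, 0, 0, -1, 0, 0, 0, 0, 0, 0, 0, 0, 0, 0, 0, 0, 0, 0, 0, 0, 0, -1, 0, 0, 0, 0, 0, 0],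
   [1, 0, 0, 0, 1, 0, 0, 0, -1, 0, 0, 1, 1, 0, 0, 0, 0, 0, 0, 0, 0, 0, -1, 0, 0, 0, -1, 0],
   [0, 0, 0, 0, 0, 0, 0, 0, 0, 0, 0, 0, 0, 0, 0, 0, -1, 0, 0, 0, 0, 0, 0, 0, 0, 0, 0, 0],
   [0, 0, 0, 0, 0, 0, 0, 0, 0, 0, 0, 0, 0, 0, 0, 0, 0, 0, 1, 0, 0, 0, 0, 0, 0, 0, 0, 0],
   [0, 0, 0, 1, 0, 0, 0, 0, 0, 0, 0, 0, 0, 0, 0, 0, 0, 0, 0, 0, 0, 0, 0, 1, 0, 0, 0, 0],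
   [0, 0, 0, 0, 0, 0, 0, 1, 0, 1, 0, 0, 0, 0, 0, 0, 0, -1, 0, 0, 0, 0, 0, 0, 0, 0, 0, 0],
   [0, 0, 0, 0, 0, 0, 0, 0, 0, 0, 0, 0, 0, 0, -1, 0, 0, 0, 0, 0, 0, 0, 0, 0, 0, 0, 0, 0],
   [0, 0, 0, 0, 0, 0, 0, 0, 0, 0, 0, 0, -2, 0, 0, 1, 1, 0, 0, 0, 0, 0, 1, -1, -1, 0, 0, 1],
   [0, 0, 0, 0, 0, 0, 0, 0, 0, 0, 0, 0, 0, 0, 0, 0, 0, 1, 0, 0, 0, 0, 0, 0, 0, 0, 0, 0],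
   [0, 0, 0, 0, 0, 0, 0, 0, 0, 0, 0, 0, 0, 0, 0, 0, 0, 0, -1, 0, 0, 0, -1, 0, 0, 0, 0, 0],
   [0, 0, 0, 0, 0, 0, 0, 0, 0, 0, 0, 0, 0, 0, 0, 0, 0, 0, 0, -1, 0, 0, 0, 0, 0, 0, 0, 0],
   [0, 0, 1, 0, 0, 0, 0, 0, 0, 0, 1, 0, 0, 0, 0, 0, 0, 0, 0, 1, 0, 0, 0, 0, 0, 0, 0, 0]]

/-- the inverse matrix -/
def pZ : List (List ℤ) :=
  [[0, 0, 0, 0, 0, 1, 0, 0, 0, 0, 0, 0, 0, 0, 0, 0, 0, 0, 0, 0, 0, 0, 0, 0, 0, 0, 0, 0],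
   [0, 0, 0, 0, 0, 0, 0, 1, 0, 0, 0, 0, 0, 0, 0, 0, 0, 0, 0, 0, 0, 0, 0, 0, 0, 0, 0, 0],
   [0, 0, 0, 0, 1, 0, 0, 0, 0, 0, 0, 0, 0, 0, 0, 0, 0, 0, 0, 0, 0, 0, 0, 0, 0, 0, 0, 0],
   [0, 0, 0, 0, 0, 0, 0, 0, 0, 0, 0, 0, 0, 0, 0, 1, 0, 0, 0, 0, 0, 0, 0, 0, 0, 0, 0, 0],
   [0, 0, 0, 1, 0, 0, 0, 0, 0, 0, 0, 0, 0, 0, 0, 0, 0, 0, 0, 0, 0, 0, 0, 0, 0, 0, 0, 0],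
   [0, 0, 0, 0, 0, 0, 0, 0, 0, 0, 0, 0, 0, 0, 1, 0, 0, 0, 0, 0, 0, 0, 0, 0, 0, 0, 0, 0],
   [0, 0, 0, 0, 0, 0, 0, 0, 0, 0, 0, 0, 1, 0, 0, 0, 0, 0, 0, 0, 0, 0, 0, 0, 0, 0, 0, 0],
   [0, 0, 0, 0, 0, 0, 0, 0, 0, 1, 0, 0, 0, 0, 0, 0, 0, 0, 0, 0, 0, 0, 0, 0, 0, 0, 0, 0],
   [1, 0, 0, 0, 1, 0, 0, 0, 0, 0, 0, 0, 0, 0, 0, 0, 0, 0, 0, 0, 0, 0, 0, 0, 0, 0, 0, 0],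
   [0, 0, 0, 0, 0, 0, 0, 0, 0, -1, 0, 0, 0, 0, 0, 0, 0, 0, 0, 0, 0, 1, 0, 0, 1, 0, 0, 0],
   [0, 0, 0, 0, -1, 0, 0, 0, 0, 0, 0, 0, 0, 0, 0, 0, 0, 0, 0, 0, 0, 0, 0, 0, 0, 0, 1, 1],
   [0, 0, 1, 0, 0, -1, 0, 0, 0, 0, 0, 0, 0, 0, 0, 0, -1, 0, 0, 0, -1, 0, 0, 0, 0, 0, 0, 0],
   [0, 0, 0, 0, 0, 0, 0, 0, 1, 0, 0, 0, 0, 0, 0, 0, 0, 0, 0, -1, 0, 0, 0, 0, 0, 0, 0, 0],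
   [0, 0, 0, 0, 1, 0, -1, 0, -1, 0, 0, 1, 0, 0, 0, 1, 0, 0, 0, 1, -1, 0, 0, -1, 0, 0, 0, -1],
   [0, 0, 0, 0, 0, 0, 0, 0, 0, 0, 0, 0, 0, 0, 0, 0, 0, 0, 0, 0, 0, 0, -1, 0, 0, 0, 0, 0],
   [0, 0, 0, 0, 0, 0, -1, 0, 0, 0, 0, 0, 0, 0, 0, 0, 0, 0, 0, 0, 0, 0, 0, 0, 0, 0, 0, 0],
   [0, 0, 0, 0, 0, 0, 0, 0, 0, 0, 0, 0, 0, 0, 0, 0, 0, 0, -1, 0, 0, 0, 0, 0, 0, 0, 0, 0],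
   [0, 0, 0, 0, 0, 0, 0, 0, 0, 0, 0, 0, 0, 0, 0, 0, 0, 0, 0, 0, 0, 0, 0, 0, 1, 0, 0, 0],
   [0, 0, 0, 0, 0, 0, 0, 0, 0, 0, 0, 0, 0, 0, 0, 0, 0, 0, 0, 1, 0, 0, 0, 0, 0, 0, 0, 0],
   [0, 0, 0, 0, 0, 0, 0, 0, 0, 0, 0, 0, 0, 0, 0, 0, 0, 0, 0, 0, 0, 0, 0, 0, 0, 0, -1, 0],
   [0, 1, 0, 0, 0, 0, 0, 0, 0, 0, 0, 0, 0, 0, 0, 0, 0, 0, 0, 0, 0, 0, 0, 0, 0, 0, 0, 0],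
   [0, 0, 0, 0, 0, 0, 0, 0, 0, 0, 0, 0, 0, 0, 0, -1, -1, 0, 0, 0, 0, 0, 0, 0, 0, 0, 0, 0],
   [0, 0, 0, 0, 0, 0, 0, 0, 0, 0, 0, 0, 0, 0, 0, 0, 0, 0, 0, -1, 0, 0, 0, 0, 0, -1, 0, 0],
   [0, 0, 0, 0, 0, 0, 0, 0, 0, 0, 0, 0, 0, 0, 0, -1, 0, 0, 0, 0, 1, 0, 0, 0, 0, 0, 0, 0],
   [0, 0, 0, 0, 0, 0, 0, 0, 0, 0, 0, 0, 0, 1, 1, 0, 0, 0, 0, 0, 0, 0, 0, 0, 0, 0, 0, 0],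
   [0, 0, 0, 0, 0, 0, 0, 0, 0, 0, 1, 0, 0, 0, 0, 0, 0, 0, 0, 0, 0, 0, -1, 0, 0, 0, 0, 0],
   [-1, 0, 1, 1, -1, 0, 0, 0, 1, 0, 0, 0, 0, 0, 0, 0, -1, -1, 0, 0, -1, 0, 0, 0, 0, 1, 0, 0],
   [0, 0, 0, 0, 0, 0, 1, 0, 2, 0, 0, 0, 0, 1, 1, -1, 0, 0, 1, -1, 1, 0, 0, 1, 0, 1, 0, 0]]

end Pool.Agent.N514.TF
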