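import Mathlib

/-!
# The forms `φ_ω` on `H²(ℤⁿ)`

`H^*(ℤⁿ)` is the exterior algebra on `ℤⁿ`.  For `ω` of degree `n - 4` the form `φ_ω` on `H²(ℤⁿ)` is
defined by `x y ω = φ_ω(x, y) [T]`.
-/

set_option autoImplicit false

namespace Pool.Agent.N514.TF

open ExteriorAlgebra

/-- The integral cohomology ring of `ℤⁿ` (or of the `n`-torus): the exterior algebra over `ℤ` on
`n` generators of degree one. -/
abbrev H (n : ℕ) : Type := ExteriorAlgebra ℤ (Fin n → ℤ)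

/-- The degree `k` part `H^k(ℤⁿ)` of the cohomology ring. -/
abbrev Hd (n k : ℕ) : Submodule ℤ (H n) := ⋀[ℤ]^k (Fin n → ℤ)

/-- The generator `[T] = e₁ e₂ ⋯ e_n` of `H^n(ℤⁿ)`. -/
noncomputable def T (n : ℕ) : H n := ExteriorAlgebra.ιMulti ℤ n (fun i => Pi.single i 1)

/-- The lattice `(ℤ²)^k ⊕ (ℤ⁸)^m`. -/
abbrev L (k m : ℕ) : Type := (Fin k → ℤ × ℤ) × (Fin m → Fin 8 → ℤ)

/-- The form `k H ⊕ m (ε E₈)` on `(ℤ²)^k ⊕ (ℤ⁸)^m`: the hyperbolic plane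
`((a, b), (a', b')) ↦ a b' + b a'` on each of the `k` summands `ℤ²`, and `ε` times the form of the
Cartan matrix of type `E₈` on each of the `m` summands `ℤ⁸`. -/
def form {k m : ℕ} (ε : ℤ) (x y : L k m) : ℤ :=
  ∑ i, ((x.1 i).1 * (y.1 i).2 + (x.1 i).2 * (y.1 i).1) +
    ε * ∑ j, x.2 j ⬝ᵥ (CartanMatrix.E₈.mulVec (y.2 j))

/-- The form `ψ` on `Λ` *arises* for `n`: there are `ω ∈ H^{n-4}(ℤⁿ)` and an isomorphism
`f : H²(ℤⁿ) ≅ Λ` such that `x y ω = ψ(f x, f y) [T]` for all `x, y ∈ H²(ℤⁿ)`, that is,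
`φ_ω(x, y) = ψ(f x, f y)`. -/
def Arises (n : ℕ) {Λ : Type} [AddCommGroup Λ] (ψ : Λ → Λ → ℤ) : Prop :=
  ∃ ω ∈ Hd n (n - 4), ∃ f : Hd n 2 ≃ₗ[ℤ] Λ,
    ∀ x y : Hd n 2, (x : H n) * (y : H n) * ω = ψ (f x) (f y) • T n

end Pool.Agent.N514.TF
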