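import Pool.Agent.N514.TF.Sg

/-! `[T]` is a generator of `H^n(ℤⁿ)`. -/

set_option autoImplicit false

namespace Pool.Agent.N514.TF

open ExteriorAlgebra Finset

theorem T_mem (n : ℕ) : T n ∈ Hd n n := ExteriorAlgebra.ιMulti_range ℤ n ⟨_, rfl⟩

/-- the determinant functional -/
noncomputable def detL (n : ℕ) : Hd n n →ₗ[ℤ] ℤ :=
  exteriorPower.alternatingMapLinearEquiv (Matrix.detRowAlternating (n := Fin n) (R := ℤ))

theorem detL_T (n : ℕ) : detL n ⟨T n, T_mem n⟩ = 1 := by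
  have h : (⟨T n, T_mem n⟩ : Hd n n) =
      exteriorPower.ιMulti ℤ n (fun i => (Pi.single i 1 : Fin n → ℤ)) := by
    apply Subtype.ext
    rfl
  rw [h, detL, exteriorPower.alternatingMapLinearEquiv_apply_ιMulti]
  have : (fun i => (Pi.single i 1 : Fin n → ℤ)) = (1 : Matrix (Fin n) (Fin n) ℤ) := by
    ext i j
    simp [Pi.single_apply, Matrix.one_apply, eq_comm]
  rw [this]
  exact Matrix.det_one

theorem smul_T_inj {n : ℕ} {a b : ℤ} (h : a • T n = b • T n) : a = b := by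
  have h' : a • (⟨T n, T_mem n⟩ : Hd n n) = b • ⟨T n, T_mem n⟩ := Subtype.ext h
  have := congrArg (detL n) h'
  rw [map_smul, map_smul, detL_T] at this
  simpa using this

theorem ιMulti_eq {n : ℕ} (v : Fin n → Fin n → ℤ) :
    ∃ c : ℤ, ExteriorAlgebra.ιMulti ℤ n v = c • T n := by
  refine ⟨Matrix.det (Matrix.of v), ?_⟩
  let g : (Fin n → ℤ) [⋀^Fin n]→ₗ[ℤ] H n :=
    (LinearMap.toSpanSingleton ℤ (H n) (T n)).compAlternatingMap
      (Matrix.detRowAlternating (n := Fin n) (R := ℤ))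
  have hg : (ExteriorAlgebra.ιMulti ℤ n : (Fin n → ℤ) [⋀^Fin n]→ₗ[ℤ] H n) = g := by
    refine Module.Basis.ext_alternating (Pi.basisFun ℤ (Fin n)) fun F hF => ?_
    let σ : Equiv.Perm (Fin n) := Equiv.ofBijective F (Finite.injective_iff_bijective.mp hF)
    have h1 := (ExteriorAlgebra.ιMulti ℤ n (M := Fin n → ℤ)).map_perm
      (fun i => Pi.single i (1 : ℤ)) σ
    have h2 := g.map_perm (fun i => Pi.single i (1 : ℤ)) σ
    have e : (fun i => (Pi.basisFun ℤ (Fin n)) (F i)) =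
        ((fun i => (Pi.single i (1 : ℤ) : Fin n → ℤ)) ∘ σ) := by
      funext i
      simp [σ]
    rw [e, h1, h2]
    congr 1
    have h3 : (Matrix.detRowAlternating (n := Fin n) (R := ℤ))
        (fun i => (Pi.single i 1 : Fin n → ℤ)) = 1 := by
      have : (fun i => (Pi.single i 1 : Fin n → ℤ)) = (1 : Matrix (Fin n) (Fin n) ℤ) := by
        ext i j
        simp [Pi.single_apply, Matrix.one_apply, eq_comm]
      rw [this]
      exact Matrix.det_one
    have h4 : g (fun i => (Pi.single i 1 : Fin n → ℤ)) =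
        (Matrix.detRowAlternating (n := Fin n) (R := ℤ))
          (fun i => (Pi.single i 1 : Fin n → ℤ)) • T n := rfl
    rw [h4, h3, one_smul]
    rfl
  have := congrArg (fun f => f v) hg
  exact this

/-- `[T]` is a generator of `H^n(ℤⁿ)`. -/
theorem T_gen (n : ℕ) (z : H n) (hz : z ∈ Hd n n) : ∃! c : ℤ, z = c • T n := by
  have hex : ∃ c : ℤ, z = c • T n := by
    have hz' : z ∈ Submodule.span ℤ
        (Set.range (ExteriorAlgebra.ιMulti ℤ n (M := Fin n → ℤ))) := by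
      rw [ExteriorAlgebra.ιMulti_span_fixedDegree]
      exact hz
    refine Submodule.span_induction (p := fun z _ => ∃ c : ℤ, z = c • T n) ?_ ?_ ?_ ?_ hz'
    · rintro _ ⟨v, rfl⟩
      exact ιMulti_eq v
    · exact ⟨0, by simp⟩
    · rintro x y _ _ ⟨a, rfl⟩ ⟨b, rfl⟩
      exact ⟨a + b, by rw [add_smul]⟩
    · rintro a x _ ⟨b, rfl⟩
      exact ⟨a * b, by rw [mul_smul]⟩
  obtain ⟨c, hc⟩ := hex
  exact ⟨c, hc, fun d hd => smul_T_inj (hd.symm.trans hc)⟩

end Pool.Agent.N514.TF
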