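import Pool.Agent.N514.TF.Chk
import Pool.Agent.N514.TF.Gen

/-! From the matrix data to forms which arise. -/

set_option autoImplicit false

namespace Pool.Agent.N514.TF

open ExteriorAlgebra Finset

/-- the increasing pair with number `a` -/
def emb (a : Fin 28) : Fin 2 ↪o Fin 8 :=
  OrderEmbedding.ofStrictMono ![(pr a).1, (pr a).2] (by
    have h := pr_lt a
    intro i j hij
    fin_cases i <;> fin_cases j <;> simp_all)

theorem emb_zero (a : Fin 28) : emb a 0 = (pr a).1 := rfl

theorem emb_one (a : Fin 28) : emb a 1 = (pr a).2 := rfl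

theorem emb_bij : Function.Bijective emb := by
  constructor
  · intro a b h
    apply pr_inj
    apply Prod.ext
    · rw [← emb_zero, ← emb_zero, h]
    · rw [← emb_one, ← emb_one, h]
  · intro g
    obtain ⟨a, ha⟩ := pr_surj (g 0) (g 1) (g.strictMono (by decide))
    refine ⟨a, ?_⟩
    ext i
    fin_cases i
    · show ((emb a 0 : Fin 8) : ℕ) = g 0
      rw [emb_zero, ha]
    · show ((emb a 1 : Fin 8) : ℕ) = g 1
      rw [emb_one, ha]

/-- the basis `e_i e_j`, `i < j`, of `H²(ℤ⁸)` -/
noncomputable def bas : Module.Basis (Fin 28) ℤ (Hd 8 2) :=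
  ((Pi.basisFun ℤ (Fin 8)).exteriorPower 2).reindex
    (Set.powersetCard.ofFinEmbEquiv.symm.trans (Equiv.ofBijective emb emb_bij).symm)

theorem bas_apply (a : Fin 28) : (bas a : H 8) = mon [(pr a).1, (pr a).2] := by
  rw [bas, Module.Basis.reindex_apply, exteriorPower.basis_apply]
  simp only [Equiv.symm_trans_apply, Equiv.symm_symm, Equiv.ofBijective_apply]
  rw [exteriorPower.ιMulti_family]
  simp only [Equiv.symm_apply_apply]
  show ExteriorAlgebra.ιMulti ℤ 2 _ = _
  rw [ExteriorAlgebra.ιMulti_apply]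
  simp [mon, emb_zero, emb_one]

theorem mon_mul_sum (w : List (ℤ × List (Fin 8))) (hw : ∀ p ∈ w, p.2.length = 4)
    (l : List (Fin 8)) (hl : l.length = 4) :
    mon l * (w.map fun p => p.1 • mon p.2).sum =
      ((w.map fun p => p.1 * sg ((l ++ p.2).map Fin.val)).sum) • T 8 := by
  induction w with
  | nil => simp
  | cons p w ih =>
    have h1 := ih fun p' hp' => hw p' (List.mem_cons_of_mem _ hp')
    have h2 : (l ++ p.2).length = 8 := by
      rw [List.length_append, hl, hw p List.mem_cons_self]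
    simp only [List.map_cons, List.sum_cons, mul_add, add_smul, h1]
    congr 1
    rw [mul_smul_comm, ← mon_append, mon_eq _ h2, mul_smul]

theorem sum_mem (w : List (ℤ × List (Fin 8))) (hw : ∀ p ∈ w, p.2.length = 4) :
    (w.map fun p => p.1 • mon p.2).sum ∈ Hd 8 (8 - 4) := by
  apply list_sum_mem
  intro x hx
  rw [List.mem_map] at hx
  obtain ⟨p, hp, rfl⟩ := hx
  apply Submodule.smul_mem
  have := mon_mem p.2
  rw [hw p hp] at this
  exact this

theorem form_add_left {k m : ℕ} (ε : ℤ) (x x' y : L k m) :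
    form ε (x + x') y = form ε x y + form ε x' y := by
  simp only [form, Prod.fst_add, Prod.snd_add, Pi.add_apply, add_dotProduct]
  rw [Finset.sum_add_distrib (f := fun j => x.2 j ⬝ᵥ _), mul_add]
  have : ∑ i : Fin k, (((x.1 i).1 + (x'.1 i).1) * (y.1 i).2 + ((x.1 i).2 + (x'.1 i).2) * (y.1 i).1)
      = ∑ i : Fin k, ((x.1 i).1 * (y.1 i).2 + (x.1 i).2 * (y.1 i).1) +
        ∑ i : Fin k, ((x'.1 i).1 * (y.1 i).2 + (x'.1 i).2 * (y.1 i).1) := by
    rw [← Finset.sum_add_distrib]
    exact Finset.sum_congr rfl fun i _ => by ring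
  rw [this]
  ring

theorem form_smul_left {k m : ℕ} (ε c : ℤ) (x y : L k m) :
    form ε (c • x) y = c * form ε x y := by
  have e1 : ∑ i : Fin k, (((c • x).1 i).1 * (y.1 i).2 + ((c • x).1 i).2 * (y.1 i).1) =
      c * ∑ i : Fin k, ((x.1 i).1 * (y.1 i).2 + (x.1 i).2 * (y.1 i).1) := by
    rw [Finset.mul_sum]
    refine Finset.sum_congr rfl fun i _ => ?_
    simp only [Prod.smul_fst, Prod.smul_snd, Pi.smul_apply, smul_eq_mul]
    ring
  have e2 : ∑ j : Fin m, (c • x).2 j ⬝ᵥ (CartanMatrix.E₈.mulVec (y.2 j)) =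
      c * ∑ j : Fin m, x.2 j ⬝ᵥ (CartanMatrix.E₈.mulVec (y.2 j)) := by
    rw [Finset.mul_sum]
    refine Finset.sum_congr rfl fun j _ => ?_
    rw [Prod.smul_snd, Pi.smul_apply, smul_dotProduct, smul_eq_mul]
  rw [form, e1, e2, form]
  ring

theorem form_add_right {k m : ℕ} (ε : ℤ) (x y y' : L k m) :
    form ε x (y + y') = form ε x y + form ε x y' := by
  simp only [form, Prod.fst_add, Prod.snd_add, Pi.add_apply, Matrix.mulVec_add, dotProduct_add]
  rw [Finset.sum_add_distrib (f := fun j => x.2 j ⬝ᵥ _), mul_add]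
  have : ∑ i : Fin k, ((x.1 i).1 * ((y.1 i).2 + (y'.1 i).2) + (x.1 i).2 * ((y.1 i).1 + (y'.1 i).1))
      = ∑ i : Fin k, ((x.1 i).1 * (y.1 i).2 + (x.1 i).2 * (y.1 i).1) +
        ∑ i : Fin k, ((x.1 i).1 * (y'.1 i).2 + (x.1 i).2 * (y'.1 i).1) := by
    rw [← Finset.sum_add_distrib]
    exact Finset.sum_congr rfl fun i _ => by ring
  rw [this]
  ring

theorem form_smul_right {k m : ℕ} (ε c : ℤ) (x y : L k m) :
    form ε x (c • y) = c * form ε x y := by
  have e1 : ∑ i : Fin k, ((x.1 i).1 * ((c • y).1 i).2 + (x.1 i).2 * ((c • y).1 i).1) =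
      c * ∑ i : Fin k, ((x.1 i).1 * (y.1 i).2 + (x.1 i).2 * (y.1 i).1) := by
    rw [Finset.mul_sum]
    refine Finset.sum_congr rfl fun i _ => ?_
    simp only [Prod.smul_fst, Prod.smul_snd, Pi.smul_apply, smul_eq_mul]
    ring
  have e2 : ∑ j : Fin m, x.2 j ⬝ᵥ (CartanMatrix.E₈.mulVec ((c • y).2 j)) =
      c * ∑ j : Fin m, x.2 j ⬝ᵥ (CartanMatrix.E₈.mulVec (y.2 j)) := by
    rw [Finset.mul_sum]
    refine Finset.sum_congr rfl fun j _ => ?_
    rw [Prod.smul_snd, Pi.smul_apply, Matrix.mulVec_smul, dotProduct_smul, smul_eq_mul]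
  rw [form, e1, e2, form]
  ring

/-- the form as a bilinear map -/
def formB (k m : ℕ) (ε : ℤ) : L k m →ₗ[ℤ] L k m →ₗ[ℤ] ℤ :=
  LinearMap.mk₂ ℤ (form ε) (form_add_left ε) (form_smul_left ε) (form_add_right ε)
    (form_smul_right ε)

/-- the inverse map, linear -/
def hL (k m : ℕ) (P : List (List ℤ)) : L k m →ₗ[ℤ] (Fin 28 → ℤ) where
  toFun := hv k m P
  map_add' x y := by
    funext c
    simp only [hv, Prod.fst_add, Prod.snd_add, Pi.add_apply]
    rw [add_add_add_comm, ← Finset.sum_add_distrib, ← Finset.sum_add_distrib]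
    congr 1
    · exact Finset.sum_congr rfl fun i _ => by ring
    · refine Finset.sum_congr rfl fun j _ => ?_
      rw [← Finset.sum_add_distrib]
      exact Finset.sum_congr rfl fun l _ => by ring
  map_smul' r x := by
    funext c
    simp only [hv, Prod.smul_fst, Prod.smul_snd, Pi.smul_apply, smul_eq_mul, RingHom.id_apply]
    rw [mul_add, Finset.mul_sum, Finset.mul_sum]
    congr 1
    · exact Finset.sum_congr rfl fun i _ => by ring
    · refine Finset.sum_congr rfl fun j _ => ?_
      rw [Finset.mul_sum]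
      exact Finset.sum_congr rfl fun l _ => by ring

theorem arises_of_data (k m : ℕ) (hkm : 2 * k + 8 * m = 28) (w : List (ℤ × List (Fin 8)))
    (q P : List (List ℤ)) (hw : ∀ p ∈ w, p.2.length = 4)
    (h1 : ∀ a c, hv k m P (qv k m q a) c = if a = c then 1 else 0)
    (h2 : ∀ a b, form 1 (qv k m q a) (qv k m q b) = gr w a b) :
    Arises 8 (form 1 : L k m → L k m → ℤ) := by
  -- the linear map given by the images of the basis
  let F : (Fin 28 → ℤ) →ₗ[ℤ] L k m := Fintype.linearCombination ℤ (qv k m q)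
  have hF : ∀ a, F (Pi.single a 1) = qv k m q a := by
    intro a
    simp [F, Fintype.linearCombination_apply_single]
  have hHF : (hL k m P) ∘ₗ F = LinearMap.id := by
    apply LinearMap.pi_ext'
    intro a
    ext c
    simp only [LinearMap.coe_comp, Function.comp_apply, LinearMap.coe_single, hF,
      LinearMap.id_coe, id_eq]
    show hv k m P (qv k m q a) c = _
    rw [h1]
    simp [Pi.single_apply, eq_comm]
  have hHF' : ∀ x, hL k m P (F x) = x := fun x => LinearMap.congr_fun hHF x
  have hsurj : Function.Surjective (hL k m P) := fun x => ⟨F x, hHF' x⟩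
  have hrank : Module.finrank ℤ (Fin 28 → ℤ) = Module.finrank ℤ (L k m) := by
    simp only [L, Module.finrank_fintype_fun_eq_card, Fintype.card_fin, Module.finrank_prod,
      Module.finrank_pi_fintype, Module.finrank_self, Finset.sum_const, Finset.card_univ,
      smul_eq_mul]
    omega
  let t : (Fin 28 → ℤ) ≃ₗ[ℤ] L k m := LinearEquiv.ofFinrankEq _ _ hrank
  have hinj : Function.Injective (hL k m P) := by
    have hs : Function.Surjective ((hL k m P) ∘ₗ (t : (Fin 28 → ℤ) →ₗ[ℤ] L k m)) := by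
      rw [LinearMap.coe_comp]
      exact hsurj.comp t.surjective
    have := IsNoetherian.injective_of_surjective_endomorphism _ hs
    intro x y hxy
    obtain ⟨x', rfl⟩ := t.surjective x
    obtain ⟨y', rfl⟩ := t.surjective y
    exact congrArg t (this hxy)
  have hFH : ∀ y, F (hL k m P y) = y := fun y => hinj (hHF' _)
  let e : (Fin 28 → ℤ) ≃ₗ[ℤ] L k m :=
    { F with
      invFun := hL k m P
      left_inv := hHF'
      right_inv := hFH }
  let f : Hd 8 2 ≃ₗ[ℤ] L k m := bas.equivFun.trans e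
  have hf : ∀ a, f (bas a) = qv k m q a := by
    intro a
    show F (bas.equivFun (bas a)) = _
    rw [← hF a]
    congr 1
    funext c
    simp [Pi.single_apply, eq_comm]
  set ω : H 8 := (w.map fun p => p.1 • mon p.2).sum with hω
  refine ⟨ω, sum_mem w hw, f, ?_⟩
  let B1 : Hd 8 2 →ₗ[ℤ] Hd 8 2 →ₗ[ℤ] H 8 :=
    LinearMap.mk₂ ℤ (fun x y => (x : H 8) * (y : H 8) * ω)
      (fun x x' y => by rw [Submodule.coe_add, add_mul, add_mul])
      (fun c x y => by rw [Submodule.coe_smul, smul_mul_assoc, smul_mul_assoc])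
      (fun x y y' => by rw [Submodule.coe_add, mul_add, add_mul])
      (fun c x y => by rw [Submodule.coe_smul, mul_smul_comm, smul_mul_assoc])
  let B2 : Hd 8 2 →ₗ[ℤ] Hd 8 2 →ₗ[ℤ] H 8 :=
    LinearMap.mk₂ ℤ (fun x y => form 1 (f x) (f y) • T 8)
      (fun x x' y => by rw [map_add, form_add_left, add_smul])
      (fun c x y => by rw [map_smul, form_smul_left, mul_smul])
      (fun x y y' => by rw [map_add, form_add_right, add_smul])
      (fun c x y => by rw [map_smul, form_smul_right, mul_smul])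
  have hB : B1 = B2 := by
    refine bas.ext fun a => bas.ext fun b => ?_
    show (bas a : H 8) * (bas b : H 8) * ω = form 1 (f (bas a)) (f (bas b)) • T 8
    rw [hf, hf, h2, bas_apply, bas_apply, ← mon_append, hω, mon_mul_sum w hw _ (by simp)]
    rfl
  intro x y
  exact LinearMap.congr_fun (LinearMap.congr_fun hB x) y

/-- `14 H` arises for `n = 8`. -/
theorem arises_Z : Arises 8 (form 1 : L 14 0 → L 14 0 → ℤ) :=
  arises_of_data 14 0 (by norm_num) wZ qZ pZ lenZ chkZ1 chkZ2

/-- `10 H ⊕ E₈` arises for `n = 8`. -/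
theorem arises_E : Arises 8 (form 1 : L 10 1 → L 10 1 → ℤ) :=
  arises_of_data 10 1 (by norm_num) wE qE pE lenE chkE1 chkE2

/-- changing the sign of `ω` -/
theorem Arises.neg {n k m : ℕ} (h : Arises n (form 1 : L k m → L k m → ℤ)) :
    Arises n (form (-1) : L k m → L k m → ℤ) := by
  obtain ⟨ω, hω, f, hf⟩ := h
  -- the isometry `(a, b) ↦ (a, -b)` of `-H` and `H`
  let s : L k m ≃ₗ[ℤ] L k m :=
    { toFun := fun x => (fun i => ((x.1 i).1, -(x.1 i).2), x.2)
      map_add' := by
        intro x y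
        apply Prod.ext
        · funext i
          apply Prod.ext
          · simp
          · simp [add_comm]
        · simp
      map_smul' := by
        intro c x
        apply Prod.ext
        · funext i
          apply Prod.ext <;> simp
        · simp
      invFun := fun x => (fun i => ((x.1 i).1, -(x.1 i).2), x.2)
      left_inv := by intro x; simp
      right_inv := by intro x; simp }
  have hs : ∀ x y : L k m, form (-1) (s x) (s y) = -form 1 x y := by
    intro x y
    show ∑ i : Fin k, ((x.1 i).1 * (-(y.1 i).2) + (-(x.1 i).2) * (y.1 i).1) +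
      (-1) * ∑ j, x.2 j ⬝ᵥ (CartanMatrix.E₈.mulVec (y.2 j)) = _
    have : ∑ i : Fin k, ((x.1 i).1 * (-(y.1 i).2) + (-(x.1 i).2) * (y.1 i).1) =
        -∑ i : Fin k, ((x.1 i).1 * (y.1 i).2 + (x.1 i).2 * (y.1 i).1) := by
      rw [← Finset.sum_neg_distrib]
      exact Finset.sum_congr rfl fun i _ => by ring
    rw [this, form]
    ring
  refine ⟨-ω, Submodule.neg_mem _ hω, f.trans s, fun x y => ?_⟩
  rw [mul_neg, hf, LinearEquiv.trans_apply, LinearEquiv.trans_apply, hs, neg_smul]

end Pool.Agent.N514.TF
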