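import Pool.Agent.N514.TF.Neg
import Pool.Agent.N514.TF.Pos

/-!
# The forms `φ_ω` on `H²(ℤⁿ)`

`H^*(ℤⁿ)` is the exterior algebra on `ℤⁿ`.  For `ω` of degree `n - 4` the form `φ_ω` on `H²(ℤⁿ)` is
defined by `x y ω = φ_ω(x, y) [T]`.
-/

set_option autoImplicit false

namespace Pool.Agent.N514.TF

/-- The integral cohomology ring of `ℤⁿ` (or of the `n`-torus): the exterior algebra over `ℤ` on
`n` generators of degree one. -/
def Coh (n : ℕ) : Type := ExteriorAlgebra ℤ (Fin n → ℤ)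

noncomputable instance instRingCoh (n : ℕ) : Ring (Coh n) :=
  inferInstanceAs (Ring (ExteriorAlgebra ℤ (Fin n → ℤ)))

/-- The degree `k` part `H^k(ℤⁿ)` of the cohomology ring. -/
def deg (n k : ℕ) : AddSubgroup (Coh n) :=
  (ExteriorAlgebra.exteriorPower ℤ k (Fin n → ℤ)).toAddSubgroup

/-- The generator `e_i` of `H^1(ℤⁿ)`. -/
noncomputable def gen (n : ℕ) (i : Fin n) : Coh n :=
  ExteriorAlgebra.ι ℤ (Pi.single i 1 : Fin n → ℤ)

/-- The generator `[T] = e₁ e₂ ⋯ e_n` of `H^n(ℤⁿ)`. -/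
noncomputable def topCls (n : ℕ) : Coh n := (List.ofFn (gen n)).prod

/-- The lattice `(ℤ²)^k ⊕ (ℤ⁸)^m`. -/
def Lat (k m : ℕ) : Type := (Fin k → ℤ × ℤ) × (Fin m → Fin 8 → ℤ)

instance instLat (k m : ℕ) : AddCommGroup (Lat k m) :=
  inferInstanceAs (AddCommGroup ((Fin k → ℤ × ℤ) × (Fin m → Fin 8 → ℤ)))

/-- The form `k H ⊕ m (ε E₈)` on `(ℤ²)^k ⊕ (ℤ⁸)^m`: the hyperbolic plane
`((a, b), (a', b')) ↦ a b' + b a'` on each of the `k` summands `ℤ²`, and `ε` times the form of the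
Cartan matrix of type `E₈` on each of the `m` summands `ℤ⁸`. -/
def frm (k m : ℕ) (ε : ℤ) (x y : Lat k m) : ℤ :=
  ∑ i, ((x.1 i).1 * (y.1 i).2 + (x.1 i).2 * (y.1 i).1) +
    ε * ∑ j, x.2 j ⬝ᵥ (CartanMatrix.E₈.mulVec (y.2 j))

/-- The form `ψ` on `Λ` *arises* for `n`: there are `ω ∈ H^{n-4}(ℤⁿ)` and an isomorphism
`f : H²(ℤⁿ) ≅ Λ` such that `x y ω = ψ(f x, f y) [T]` for all `x, y ∈ H²(ℤⁿ)`, that is,
`φ_ω(x, y) = ψ(f x, f y)`. -/
def Arise (n : ℕ) {Λ : Type} [AddCommGroup Λ] (ψ : Λ → Λ → ℤ) : Prop :=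
  ∃ ω ∈ deg n (n - 4), ∃ f : deg n 2 ≃+ Λ,
    ∀ x y : deg n 2, (x : Coh n) * (y : Coh n) * ω = ψ (f x) (f y) • topCls n

theorem topCls_eq (n : ℕ) : topCls n = T n := by
  rw [T, ExteriorAlgebra.ιMulti_apply]
  rfl

theorem arise_iff (n k m : ℕ) (ε : ℤ) :
    Arise n (frm k m ε) ↔ Arises n (form ε : L k m → L k m → ℤ) := by
  constructor
  · rintro ⟨ω, hω, f, hf⟩
    let f0 : Hd n 2 ≃+ L k m := f
    refine ⟨ω, hω, f0.toIntLinearEquiv, fun x y => ?_⟩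
    have := hf x y
    rw [topCls_eq] at this
    exact this
  · rintro ⟨ω, hω, f, hf⟩
    refine ⟨ω, hω, (f.toAddEquiv : Hd n 2 ≃+ L k m), fun x y => ?_⟩
    have := hf x y
    rw [topCls_eq]
    exact this

theorem top_gen (n : ℕ) : topCls n ∈ deg n n ∧ ∀ z ∈ deg n n, ∃! c : ℤ, z = c • topCls n := by
  rw [topCls_eq]
  exact ⟨T_mem n, T_gen n⟩

end Pool.Agent.N514.TF
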