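import Pool.Agent.N514.TF.Gen

/-! The isotropic subgroup `e₁ H¹` and the bound for the rank of the hyperbolic part. -/

set_option autoImplicit false

namespace Pool.Agent.N514.TF

open ExteriorAlgebra Finset

theorem e8_id (v : Fin 8 → ℤ) : 60 * (v ⬝ᵥ CartanMatrix.E₈.mulVec v) =
    30 * (2 * v 0 - v 2) ^ 2 + 30 * (2 * v 1 - v 3) ^ 2 + 10 * (3 * v 2 - 2 * v 3) ^ 2 +
    2 * (5 * v 3 - 6 * v 4) ^ 2 + 3 * (4 * v 4 - 5 * v 5) ^ 2 + 5 * (3 * v 5 - 4 * v 6) ^ 2 +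
    10 * (2 * v 6 - 3 * v 7) ^ 2 + 30 * v 7 ^ 2 := by
  simp only [dotProduct, Matrix.mulVec, Fin.sum_univ_eight, CartanMatrix.E₈, Matrix.of_apply,
    Matrix.cons_val', Matrix.cons_val, Matrix.cons_val_fin_one]
  ring

theorem e8_nonneg (v : Fin 8 → ℤ) : 0 ≤ v ⬝ᵥ CartanMatrix.E₈.mulVec v := by
  have h := e8_id v
  nlinarith [sq_nonneg (2 * v 0 - v 2), sq_nonneg (2 * v 1 - v 3), sq_nonneg (3 * v 2 - 2 * v 3),
    sq_nonneg (5 * v 3 - 6 * v 4), sq_nonneg (4 * v 4 - 5 * v 5), sq_nonneg (3 * v 5 - 4 * v 6),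
    sq_nonneg (2 * v 6 - 3 * v 7), sq_nonneg (v 7)]

theorem e8_eq_zero (v : Fin 8 → ℤ) (h0 : v ⬝ᵥ CartanMatrix.E₈.mulVec v = 0) : v = 0 := by
  have h := e8_id v
  rw [h0] at h
  have s0 := sq_nonneg (2 * v 0 - v 2)
  have s1 := sq_nonneg (2 * v 1 - v 3)
  have s2 := sq_nonneg (3 * v 2 - 2 * v 3)
  have s3 := sq_nonneg (5 * v 3 - 6 * v 4)
  have s4 := sq_nonneg (4 * v 4 - 5 * v 5)
  have s5 := sq_nonneg (3 * v 5 - 4 * v 6)
  have s6 := sq_nonneg (2 * v 6 - 3 * v 7)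
  have s7 := sq_nonneg (v 7)
  have z7 : v 7 = 0 := pow_eq_zero_iff (n := 2) (by norm_num) |>.mp (by linarith)
  have z6 : 2 * v 6 - 3 * v 7 = 0 := pow_eq_zero_iff (n := 2) (by norm_num) |>.mp (by linarith)
  have z5 : 3 * v 5 - 4 * v 6 = 0 := pow_eq_zero_iff (n := 2) (by norm_num) |>.mp (by linarith)
  have z4 : 4 * v 4 - 5 * v 5 = 0 := pow_eq_zero_iff (n := 2) (by norm_num) |>.mp (by linarith)
  have z3 : 5 * v 3 - 6 * v 4 = 0 := pow_eq_zero_iff (n := 2) (by norm_num) |>.mp (by linarith)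
  have z2 : 3 * v 2 - 2 * v 3 = 0 := pow_eq_zero_iff (n := 2) (by norm_num) |>.mp (by linarith)
  have z1 : 2 * v 1 - v 3 = 0 := pow_eq_zero_iff (n := 2) (by norm_num) |>.mp (by linarith)
  have z0 : 2 * v 0 - v 2 = 0 := pow_eq_zero_iff (n := 2) (by norm_num) |>.mp (by linarith)
  have w6 : v 6 = 0 := by omega
  have w5 : v 5 = 0 := by omega
  have w4 : v 4 = 0 := by omega
  have w3 : v 3 = 0 := by omega
  have w2 : v 2 = 0 := by omega
  have w1 : v 1 = 0 := by omega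
  have w0 : v 0 = 0 := by omega
  funext i
  fin_cases i <;> assumption

/-- the element `e₁ v` of `H²` -/
noncomputable def uE {n : ℕ} (v : Fin (n + 1) → ℤ) : Hd (n + 1) 2 :=
  ⟨ι ℤ (Pi.single 0 1) * ι ℤ v, by
    rw [Hd, exteriorPower, pow_two]
    exact Submodule.mul_mem_mul (LinearMap.mem_range_self _ _) (LinearMap.mem_range_self _ _)⟩

theorem uE_mul {n : ℕ} (v w : Fin (n + 1) → ℤ) : (uE v : H (n + 1)) * uE w = 0 := by
  show ι ℤ (Pi.single 0 1) * ι ℤ v * (ι ℤ (Pi.single 0 1) * ι ℤ w) = 0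
  have h1 : ι ℤ v * ι ℤ (Pi.single 0 1 : Fin (n + 1) → ℤ) =
      - (ι ℤ (Pi.single 0 1) * ι ℤ v) := by
    have := ExteriorAlgebra.ι_add_mul_swap (R := ℤ) v (Pi.single 0 1 : Fin (n + 1) → ℤ)
    exact eq_neg_of_add_eq_zero_left this
  have h2 : ι ℤ (Pi.single 0 1 : Fin (n + 1) → ℤ) * ι ℤ (Pi.single 0 1) = 0 :=
    ExteriorAlgebra.ι_sq_zero _
  calc ι ℤ (Pi.single 0 1) * ι ℤ v * (ι ℤ (Pi.single 0 1) * ι ℤ w)
      = ι ℤ (Pi.single 0 1) * (ι ℤ v * ι ℤ (Pi.single 0 1)) * ι ℤ w := by noncomm_ring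
    _ = - (ι ℤ (Pi.single 0 1 : Fin (n + 1) → ℤ) * ι ℤ (Pi.single 0 1)) * ι ℤ v * ι ℤ w := by
        rw [h1]; noncomm_ring
    _ = 0 := by rw [h2]; simp

theorem uE_add {n : ℕ} (v w : Fin (n + 1) → ℤ) : uE (v + w) = uE v + uE w := by
  apply Subtype.ext
  show ι ℤ (Pi.single 0 1) * ι ℤ (v + w) = ι ℤ (Pi.single 0 1) * ι ℤ v + ι ℤ (Pi.single 0 1) * ι ℤ w
  rw [map_add, mul_add]

theorem uE_smul {n : ℕ} (c : ℤ) (v : Fin (n + 1) → ℤ) : uE (c • v) = c • uE v := by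
  apply Subtype.ext
  show ι ℤ (Pi.single 0 1) * ι ℤ (c • v) = c • (ι ℤ (Pi.single 0 1) * ι ℤ v)
  rw [map_smul, mul_smul_comm]

theorem uE_eq_zero {n : ℕ} (v : Fin (n + 1) → ℤ) (hv : uE v = 0) (j : Fin (n + 1)) (hj : j ≠ 0) :
    v j = 0 := by
  let A : (Fin (n + 1) → ℤ) [⋀^Fin 2]→ₗ[ℤ] ℤ :=
    (Matrix.detRowAlternating (n := Fin 2) (R := ℤ)).compLinearMap
      (LinearMap.pi ![LinearMap.proj 0, LinearMap.proj j])
  have h1 : uE v = exteriorPower.ιMulti ℤ 2 ![Pi.single 0 1, v] := by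
    apply Subtype.ext
    show ι ℤ (Pi.single 0 1) * ι ℤ v = ExteriorAlgebra.ιMulti ℤ 2 _
    rw [ExteriorAlgebra.ιMulti_apply]
    simp
  have h2 := congrArg (exteriorPower.alternatingMapLinearEquiv A) hv
  rw [h1, exteriorPower.alternatingMapLinearEquiv_apply_ιMulti, map_zero] at h2
  have h3 : A ![Pi.single 0 1, v] = Matrix.det
      !![(1 : ℤ), 0; v 0, v j] := by
    have e : (fun a => (LinearMap.pi ![LinearMap.proj 0, LinearMap.proj j] :
        (Fin (n + 1) → ℤ) →ₗ[ℤ] (Fin 2 → ℤ))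
        ((![Pi.single 0 1, v] : Fin 2 → Fin (n + 1) → ℤ) a)) =
        (!![(1 : ℤ), 0; v 0, v j] : Matrix (Fin 2) (Fin 2) ℤ) := by
      funext a b
      fin_cases a <;> fin_cases b <;> simp [hj]
    show (Matrix.detRowAlternating (n := Fin 2) (R := ℤ)) (fun a => (LinearMap.pi
      ![LinearMap.proj 0, LinearMap.proj j] : (Fin (n + 1) → ℤ) →ₗ[ℤ] (Fin 2 → ℤ))
        ((![Pi.single 0 1, v] : Fin 2 → Fin (n + 1) → ℤ) a)) = _
    rw [e]
    rfl
  rw [h3, Matrix.det_fin_two_of] at h2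
  simpa using h2

theorem bound {n k m : ℕ} {ε : ℤ} (hε : ε = 1 ∨ ε = -1)
    (h : Arises (n + 1) (form ε : L k m → L k m → ℤ)) : n ≤ k := by
  obtain ⟨ω, -, f, hf⟩ := h
  -- the linear map
  let g : (Fin n → ℤ) →ₗ[ℤ] (Fin k → ℤ) :=
    { toFun := fun v i => ((f (uE (Fin.cons 0 v))).1 i).1 - ε * ((f (uE (Fin.cons 0 v))).1 i).2
      map_add' := by
        intro v w
        funext i
        have e : (Fin.cons 0 (v + w) : Fin (n + 1) → ℤ) = Fin.cons 0 v + Fin.cons 0 w := by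
          funext j
          refine Fin.cases ?_ (fun j => ?_) j <;> simp
        rw [e, uE_add, map_add]
        simp only [Prod.fst_add, Pi.add_apply, Prod.snd_add]
        ring
      map_smul' := by
        intro c v
        funext i
        have e : (Fin.cons 0 (c • v) : Fin (n + 1) → ℤ) = c • Fin.cons 0 v := by
          funext j
          refine Fin.cases ?_ (fun j => ?_) j <;> simp
        rw [e, uE_smul, map_smul]
        simp only [Prod.smul_fst, Pi.smul_apply, Prod.smul_snd, smul_eq_mul, RingHom.id_apply]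
        ring }
  refine le_of_fin_injective ℤ g ?_
  rw [injective_iff_map_eq_zero]
  intro v hv
  set w := f (uE (Fin.cons 0 v)) with hw
  have hi : ∀ i, (w.1 i).1 = ε * (w.1 i).2 := by
    intro i
    have := congrFun hv i
    have h2 : (w.1 i).1 - ε * (w.1 i).2 = 0 := this
    linarith
  have h0 : form ε w w = 0 := by
    have h1 := hf (uE (Fin.cons 0 v)) (uE (Fin.cons 0 v))
    rw [uE_mul, zero_mul] at h1
    have h2 : (0 : ℤ) • T (n + 1) = form ε w w • T (n + 1) := by rw [zero_smul]; exact h1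
    exact (smul_T_inj h2).symm
  have hεε : ε * ε = 1 := by rcases hε with rfl | rfl <;> norm_num
  have h1 : form ε w w = ε * (∑ i, 2 * (w.1 i).2 ^ 2 +
      ∑ j, w.2 j ⬝ᵥ (CartanMatrix.E₈.mulVec (w.2 j))) := by
    have e : ∑ i : Fin k, ((w.1 i).1 * (w.1 i).2 + (w.1 i).2 * (w.1 i).1) =
        ε * ∑ i : Fin k, 2 * (w.1 i).2 ^ 2 := by
      rw [Finset.mul_sum]
      exact Finset.sum_congr rfl fun i _ => by rw [hi i]; ring
    unfold form
    rw [e]
    ring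
  have h2 : ∑ i, 2 * (w.1 i).2 ^ 2 +
      ∑ j, w.2 j ⬝ᵥ (CartanMatrix.E₈.mulVec (w.2 j)) = 0 := by
    have h3 : ε * form ε w w = 0 := by rw [h0, mul_zero]
    rw [h1, ← mul_assoc, hεε, one_mul] at h3
    exact h3
  have p1 : 0 ≤ ∑ i, 2 * (w.1 i).2 ^ 2 := Finset.sum_nonneg fun i _ => by positivity
  have p2 : 0 ≤ ∑ j, w.2 j ⬝ᵥ (CartanMatrix.E₈.mulVec (w.2 j)) :=
    Finset.sum_nonneg fun j _ => e8_nonneg _
  have q1 : ∑ i : Fin k, 2 * (w.1 i).2 ^ 2 = 0 := by linarith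
  have q2 : ∑ j, w.2 j ⬝ᵥ (CartanMatrix.E₈.mulVec (w.2 j)) = 0 := by linarith
  have r1 : ∀ i, (w.1 i).2 = 0 := by
    intro i
    have := (Finset.sum_eq_zero_iff_of_nonneg
      (fun (i : Fin k) (_ : i ∈ univ) => (by positivity : 0 ≤ 2 * (w.1 i).2 ^ 2))).mp
      q1 i (mem_univ i)
    have h4 : (w.1 i).2 ^ 2 = 0 := by linarith
    exact pow_eq_zero_iff (n := 2) (by norm_num) |>.mp h4
  have r2 : ∀ j, w.2 j = 0 := by
    intro j
    exact e8_eq_zero _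
      ((Finset.sum_eq_zero_iff_of_nonneg (fun j _ => e8_nonneg _)).mp q2 j (mem_univ j))
  have hw0 : w = 0 := by
    apply Prod.ext
    · funext i
      apply Prod.ext
      · rw [hi i, r1 i]; simp
      · rw [r1 i]; simp
    · funext j
      rw [r2 j]
      rfl
  have hu : uE (Fin.cons 0 v) = (0 : Hd (n + 1) 2) := by
    apply f.injective
    rw [← hw, hw0, map_zero]
  funext j
  have := uE_eq_zero _ hu j.succ (Fin.succ_ne_zero j)
  simpa using this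

theorem rank_eq {n k m : ℕ} {ψ : L k m → L k m → ℤ} (h : Arises n ψ) :
    2 * k + 8 * m = n.choose 2 := by
  obtain ⟨ω, -, f, -⟩ := h
  have h1 := f.finrank_eq
  rw [exteriorPower.finrank_eq] at h1
  simp only [L, Module.finrank_fintype_fun_eq_card, Fintype.card_fin, Module.finrank_prod,
    Module.finrank_pi_fintype, Module.finrank_self, Finset.sum_const, Finset.card_univ,
    smul_eq_mul] at h1
  omega

end Pool.Agent.N514.TF
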